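import Pool.Agent.Helper34.CP.Goals
import Pool.Agent.Helper43.Uct.TI
import Pool.Agent.Helper10.Uct.TLV

/-! # Packet CP-MATZ: the matrix algebra of degree zero is in the class -/

open scoped ComplexOrder

namespace Pool.Agent.Helper58.CP

open Pool.Agent.Helper39.Uct Pool.Agent.Helper34.CP

/-- The diagonal corner as a *-homomorphism. -/
noncomputable def cornerHom {B M F : Type} [NonUnitalCStarAlgebra B] [NonUnitalCStarAlgebra M]
    [NonUnitalCStarAlgebra F] {e : ℤ → ℤ → B →ₗ[ℂ] M} (he : MatSys e) (j : ℤ)
    (ι : F →⋆ₙₐ[ℂ] B) : F →⋆ₙₐ[ℂ] M where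
  toFun x := e j j (ι x)
  map_smul' c x := by
    rw [map_smul, map_smul]
    rfl
  map_zero' := by rw [map_zero, map_zero]
  map_add' x y := by rw [map_add, map_add]
  map_mul' x y := by rw [map_mul, he.mul]
  map_star' x := by rw [map_star, he.star]

theorem matz : S_MATZ := by
  intro 𝒞 hC B M _ _ G e he hq A _ _ κ hκ hκr
  refine Helper75.Uct2.t_ZORN2 𝒞 (fun A' => ∃ π : A →⋆ₙₐ[ℂ] A', Function.Surjective π) ?_
    hC.ext hC.union ?_ ?_ A ⟨NonUnitalStarAlgHom.id ℂ A, fun x => ⟨x, rfl⟩⟩
  · intro A _ hA
    refine hC.typeI A ?_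
    intro A' _ π hπ hn
    exfalso
    have : Subsingleton A' := hπ.subsingleton
    exact not_subsingleton A' inferInstance
  · intro A₁ A₂ _ _ π hπ h
    obtain ⟨π₀, hπ₀⟩ := h
    exact ⟨π.comp π₀, hπ.comp hπ₀⟩
  · intro A' _ _ hA' hn
    obtain ⟨π, hπ⟩ := hA'
    -- a generator with nonzero image
    obtain ⟨i, j, b, a, hb, ha, hπa⟩ : ∃ (i j : ℤ) (b : B) (a : A),
        b ∈ G.fib (Multiplicative.ofAdd (i - j)) ∧ κ a = e i j b ∧ π a ≠ 0 := by
      by_contra hcon
      push Not at hcon
      have hiso : Isometry κ := NonUnitalStarAlgHom.isometry κ hκ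
      have hclosed : IsClosed {a : A | π a = 0} := by
        have hcont : Continuous π := by
          have := NonUnitalStarAlgHom.instContinuousLinearMapClassComplex (F := A →⋆ₙₐ[ℂ] A')
            (A := A) (B := A')
          exact map_continuous π
        exact isClosed_eq hcont continuous_const
      let N : Submodule ℂ M :=
        { carrier := κ '' {a : A | π a = 0}
          add_mem' := by
            rintro _ _ ⟨x, hx, rfl⟩ ⟨y, hy, rfl⟩
            refine ⟨x + y, ?_, map_add κ x y⟩
            show π (x + y) = 0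
            rw [map_add, show π x = 0 from hx, show π y = 0 from hy, add_zero]
          zero_mem' := ⟨0, map_zero π, map_zero κ⟩
          smul_mem' := by
            rintro c _ ⟨x, hx, rfl⟩
            refine ⟨c • x, ?_, map_smul κ c x⟩
            show π (c • x) = 0
            rw [map_smul, show π x = 0 from hx, smul_zero] }
      have hN : IsClosed (N : Set M) := hiso.isClosedEmbedding.isClosedMap _ hclosed
      have hle : ASpan G (MonoidHom.id _) e ≤ N := by
        refine Submodule.span_le.2 ?_
        rintro x ⟨i, j, q, hq1, b, hb, rfl⟩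
        have hq2 : q = Multiplicative.ofAdd (i - j) := hq1
        subst hq2
        have hmem : e i j b ∈ ((ASpan G (MonoidHom.id _) e).topologicalClosure : Set M) :=
          Submodule.le_topologicalClosure _ (Submodule.subset_span ⟨i, j, _, rfl, b, hb, rfl⟩)
        rw [← hκr] at hmem
        obtain ⟨a, ha⟩ := hmem
        exact ⟨a, hcon i j b a hb ha, ha⟩
      have hcl := Submodule.topologicalClosure_minimal _ hle hN
      have hzero : ∀ a, π a = 0 := by
        intro a
        have h1 : κ a ∈ ((ASpan G (MonoidHom.id _) e).topologicalClosure : Set M) := by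
          rw [← hκr]
          exact ⟨a, rfl⟩
        obtain ⟨a', ha', haa⟩ := hcl h1
        rw [← hκ haa]
        exact ha'
      have : Subsingleton A' := by
        refine ⟨fun x y => ?_⟩
        obtain ⟨x', rfl⟩ := hπ x
        obtain ⟨y', rfl⟩ := hπ y
        rw [hzero, hzero]
      exact not_subsingleton A' inferInstance
    -- the corner
    obtain ⟨F, _, ι, hι, hιr⟩ := Helper10.Uct.exists_alg (G.fib 1) (G.closed 1)
      (fun x hx y hy => by
        have := G.mul_mem 1 1 x y hx hy
        rwa [one_mul] at this)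
      (fun x hx => by
        have := G.star_mem 1 x hx
        rwa [inv_one] at this)
    have hιmem : ∀ f : F, ι f ∈ G.fib 1 := by
      intro f
      have : ι f ∈ (G.fib 1 : Set B) := by
        rw [← hιr]
        exact ⟨f, rfl⟩
      exact this
    have hιsurj : ∀ b ∈ G.fib 1, ∃ f : F, ι f = b := by
      intro b hb
      have : b ∈ (G.fib 1 : Set B) := hb
      rw [← hιr] at this
      exact this
    obtain ⟨ε, hε⟩ : ∃ ε : F →⋆ₙₐ[ℂ] A, ∀ f, κ (ε f) = e j j (ι f) := by
      refine Helper10.Uct.lift_hom (cornerHom he j ι) κ hκ ?_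
      rintro _ ⟨f, rfl⟩
      rw [hκr]
      refine Submodule.le_topologicalClosure _ (Submodule.subset_span
        ⟨j, j, 1, ?_, ι f, hιmem f, rfl⟩)
      simp
    -- the range of the corner in the quotient
    set ρ : F →⋆ₙₐ[ℂ] A' := π.comp ε with hρ
    have hρa : ∀ f, ρ f = π (ε f) := fun f => rfl
    let R : Submodule ℂ A' :=
      { carrier := Set.range ρ
        add_mem' := by
          rintro _ _ ⟨x, rfl⟩ ⟨y, rfl⟩
          exact ⟨x + y, map_add ρ x y⟩
        zero_mem' := ⟨0, map_zero ρ⟩
        smul_mem' := by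
          rintro c _ ⟨x, rfl⟩
          exact ⟨c • x, map_smul ρ c x⟩ }
    obtain ⟨D, _, δ, hδ, hδr⟩ := Helper10.Uct.exists_alg R (t_RC F A' ρ)
      (by
        rintro _ ⟨x, rfl⟩ _ ⟨y, rfl⟩
        exact ⟨x * y, map_mul ρ x y⟩)
      (by
        rintro _ ⟨x, rfl⟩
        exact ⟨star x, map_star ρ x⟩)
    have hδr' : Set.range δ = Set.range ρ := hδr
    obtain ⟨ρ', hρ'⟩ := Helper10.Uct.lift_hom ρ δ hδ (by rw [hδr'])
    have hρ's : Function.Surjective ρ' := by
      intro d
      have : δ d ∈ Set.range ρ := by
        rw [← hδr']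
        exact ⟨d, rfl⟩
      obtain ⟨f, hf⟩ := this
      refine ⟨f, hδ ?_⟩
      rw [hρ', hf]
    have : TopologicalSpace.SeparableSpace D := Helper43.Uct.sep_of_inj δ hδ
    have hD : 𝒞 D := hq F D ι ρ' hι hιr hρ's
    -- the corner is hereditary
    have hher : Hered δ := by
      refine ⟨hδ, ?_⟩
      intro x y a'
      obtain ⟨f₁, rfl⟩ := hρ's x
      obtain ⟨f₂, rfl⟩ := hρ's y
      obtain ⟨a₀, rfl⟩ := hπ a'
      rw [hρ', hρ', hρa, hρa, ← map_mul, ← map_mul, hδr']
      let N : Submodule ℂ M :=
        { carrier := Set.range (cornerHom he j ι)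
          add_mem' := by
            rintro _ _ ⟨x, rfl⟩ ⟨y, rfl⟩
            exact ⟨x + y, map_add _ x y⟩
          zero_mem' := ⟨0, map_zero _⟩
          smul_mem' := by
            rintro c _ ⟨x, rfl⟩
            exact ⟨c • x, map_smul _ c x⟩ }
      have hN : IsClosed (N : Set M) := t_RC F M (cornerHom he j ι)
      have h1 : κ a₀ ∈ (ASpan G (MonoidHom.id _) e).topologicalClosure := by
        have : κ a₀ ∈ ((ASpan G (MonoidHom.id _) e).topologicalClosure : Set M) := by
          rw [← hκr]
          exact ⟨a₀, rfl⟩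
        exact this
      have h2 := Helper10.Uct.closure_map_mem _ N hN
        ((LinearMap.mulRight ℂ (e j j (ι f₂))).comp (LinearMap.mulLeft ℂ (e j j (ι f₁))))
        ((continuous_mul_const _).comp (continuous_const_mul _)) (by
          rintro x ⟨i', k', q, hq1, b', hb', rfl⟩
          have hq2 : q = Multiplicative.ofAdd (i' - k') := hq1
          subst hq2
          show e j j (ι f₁) * e i' k' b' * e j j (ι f₂) ∈ N
          by_cases h3 : j = i'
          · by_cases h4 : k' = j
            · subst h3
              subst h4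
              rw [he.mul, he.mul]
              have h5 : ι f₁ * b' * ι f₂ ∈ G.fib 1 := by
                have h6 := G.mul_mem _ _ _ _ (G.mul_mem _ _ _ _ (hιmem f₁) hb') (hιmem f₂)
                simpa using h6
              obtain ⟨f, hf⟩ := hιsurj _ h5
              refine ⟨f, ?_⟩
              show e k' k' (ι f) = _
              rw [hf]
            · rw [mul_assoc, he.mul0 _ _ _ _ _ _ h4, mul_zero]
              exact N.zero_mem
          · rw [he.mul0 _ _ _ _ _ _ h3, zero_mul]
            exact N.zero_mem) (κ a₀) h1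
      obtain ⟨f, hf⟩ := h2
      refine ⟨f, ?_⟩
      rw [hρa]
      congr 1
      apply hκ
      rw [hε, map_mul, map_mul, hε, hε]
      exact hf
    -- the corner is not zero
    have hnt : Nontrivial D := by
      have h1 : star b * b ∈ G.fib 1 := by
        have h2 := G.mul_mem _ _ _ _ (G.star_mem _ b hb) hb
        rwa [inv_mul_cancel] at h2
      obtain ⟨f, hf⟩ := hιsurj _ h1
      have h3 : ε f = star a * a := by
        apply hκ
        rw [hε, hf, map_mul κ, map_star κ, ha, he.star, he.mul]
      have h4 : ρ f ≠ 0 := by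
        rw [hρa, h3, map_mul, map_star]
        intro h5
        exact hπa (CStarRing.star_mul_self_eq_zero_iff _ |>.1 h5)
      refine ⟨ρ' f, 0, fun h5 => h4 ?_⟩
      rw [← hρ', h5, map_zero]
    exact Helper27.Uct2.idl 𝒞 (fun H A _ _ _ ι h f hH => (hC.hered H A ι h f).1 hH) D A' δ hher
      hnt hD

end Pool.Agent.Helper58.CP
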